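import Pool.Agent.Helper60.Bis.Main
import Pool.Agent.Helper60.Bis.ToGraph
import Pool.Agent.Helper60.Bis.Three

/-!
# Judicious bisections: the exact value of c(k) for every k
-/

namespace Pool.Agent.Results.MP_5a0985_co.AllMinDegrees

open Pool.Agent.Bis Pool.Agent.Helper60.Bis

/-- the smallest odd number which is at least `k` -/
def oddUp (k : ℕ) : ℕ := if Even k then k + 1 else k

theorem oddUp_odd (k : ℕ) : Odd (oddUp k) := by
  unfold oddUp
  split_ifs with h
  · exact h.add_one
  · exact Nat.not_even_iff_odd.1 h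

theorem le_oddUp (k : ℕ) : k ≤ oddUp k := by
  unfold oddUp; split_ifs <;> omega

theorem oddUp_le (k : ℕ) : oddUp k ≤ k + 1 := by
  unfold oddUp; split_ifs <;> omega

theorem upper (k : ℕ) (hk : 2 ≤ k) :
    Admissible k (((oddUp k : ℕ) + 1 : ℝ) / (4 * (oddUp k : ℕ))) := by
  have h1 := oddUp_odd k
  have h2 := le_oddUp k
  have h3 := oddUp_le k
  rcases (show oddUp k = 3 ∨ 5 ≤ oddUp k by obtain ⟨a, ha⟩ := h1; omega) with h | h
  · intro V _ G hG
    rw [h]
    have h4 := Three.upper V G (fun v => hk.trans (hG v))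
    obtain ⟨S, hS, hle⟩ := h4
    refine ⟨S, hS, hle.trans (le_of_eq ?_)⟩
    norm_num
  · intro V _ G hG
    classical
    have : Fintype V := Fintype.ofFinite V
    have hdeg : ∀ v, oddUp k ≤ G.degree v + 1 := by
      intro v
      have h4 := hG v
      have h5 : (G.neighborSet v).ncard = G.degree v := by
        rw [Set.ncard_eq_toFinset_card', SimpleGraph.degree, SimpleGraph.neighborFinset]
      omega
    have hK1 : 1 ≤ oddUp k := by omega
    refine link G (oddUp k) hK1 (goodB_of_not_bad G (oddUp k) hK1 ?_)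
    refine not_bad (j := (oddUp k : ℤ)) (adj_Gr G (oddUp k) hdeg) (by exact_mod_cast h) ?_ ?_
    · exact_mod_cast h1
    · have : ((oddUp k : ℕ) : ℚ) ≠ 0 := by
        have : oddUp k ≠ 0 := by omega
        exact_mod_cast this
      push_cast
      field_simp

/-- **Main theorem.** For every `k ≥ 2` the least admissible constant, hence `c(k)`, equals
`(k + 2) / (4 (k + 1))` if `k` is even and `(k + 1) / (4 k)` if `k` is odd. -/
theorem result : ∀ k : ℕ, 2 ≤ k →
    IsLeast {c : ℝ | Admissible k c}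
      (if Even k then ((k : ℝ) + 2) / (4 * ((k : ℝ) + 1)) else ((k : ℝ) + 1) / (4 * (k : ℝ))) ∧
    sInf {c : ℝ | Admissible k c} =
      (if Even k then ((k : ℝ) + 2) / (4 * ((k : ℝ) + 1)) else ((k : ℝ) + 1) / (4 * (k : ℝ))) := by
  intro k hk
  have hval : (if Even k then ((k : ℝ) + 2) / (4 * ((k : ℝ) + 1)) else
      ((k : ℝ) + 1) / (4 * (k : ℝ))) = ((oddUp k : ℕ) + 1 : ℝ) / (4 * (oddUp k : ℕ)) := by
    unfold oddUp
    split_ifs with h
    · push_cast; ring
    · rfl
  have hleast : IsLeast {c : ℝ | Admissible k c} (((oddUp k : ℕ) + 1 : ℝ) / (4 * (oddUp k : ℕ))) :=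
    ⟨upper k hk, fun c hc => lower_bound (oddUp k) k (oddUp_odd k) (le_oddUp k) c hc⟩
  rw [hval]
  exact ⟨hleast, hleast.csInf_eq⟩

end Pool.Agent.Results.MP_5a0985_co.AllMinDegrees
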